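import Pool.Agent.Helper97.TN.St3

set_option autoImplicit false

namespace Pool.Agent.Helper41.TN

open NumberField IsDedekindDomain Polynomial Filter Topology
open Pool.Agent.Helper97.TN Pool.Agent.Helper95.TT Pool.Agent.Helper24.TF Pool.Agent.Helper96.BC
open scoped Classical

noncomputable section

theorem fx_bd {G : Type} [Group G] (X : Type) [Fintype X] [MulAction G X] (g : G) :
    0 ≤ fx X g ∧ fx X g ≤ Nat.card X := by
  unfold fx
  refine ⟨Nat.cast_nonneg _, ?_⟩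
  exact_mod_cast Nat.card_le_card_of_injective (fun x : {x : X // g • x = x} => (x : X))
    Subtype.val_injective

theorem hR3 (hG3 : StG3) (hM1 : StM1) (hM2 : StM2) (hR1 : StR1) (hR2 : StR2) :
    StR3 := by
  intro k _ _ m f hf hsep L _ _ _ _ σ R hR hσ ι _ X _ _ hX hdiff C b hb
  have hfd : FiniteDimensional k L := Module.Finite.of_restrictScalars_finite ℚ k L
  have hfin : Finite (L ≃ₐ[k] L) := inferInstance
  obtain ⟨c, C', R', hR', hc, hBN⟩ := hM1 k m f hf hsep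
  have hDiv : ∀ i, Div (fx (X i) : (L ≃ₐ[k] L) → ℝ) := fun i => (hG3 (L ≃ₐ[k] L)).1 (X i)
  have h4 := fun i => hR1 (L ≃ₐ[k] L) (X i) (hX i)
  have hla : ∀ i, avg (la (fx (X i) : (L ≃ₐ[k] L) → ℝ)) = 0 := fun i => (h4 i).2.1
  have hsy : ∀ i, avg (sy (fx (X i) : (L ≃ₐ[k] L) → ℝ)) = 2 := fun i => (h4 i).1
  have horth : ∀ i j, i ≠ j →
      avg (fun g => (la (fx (X i) : (L ≃ₐ[k] L) → ℝ) g - avg (la (fx (X i) : (L ≃ₐ[k] L) → ℝ))) *
        (la (fx (X j) : (L ≃ₐ[k] L) → ℝ) g - avg (la (fx (X j) : (L ≃ₐ[k] L) → ℝ)))) = 0 := by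
    intro i j hij
    have h := hR2 (L ≃ₐ[k] L) (X i) (X j) (hX i) (hX j) (hdiff i j hij)
    simp only [hla, sub_zero]
    exact h
  -- a common bound
  obtain ⟨T, hT0, hT⟩ : ∃ T : ℝ, 0 ≤ T ∧ ∀ i (g : L ≃ₐ[k] L), |fx (X i) g| ≤ T := by
    refine ⟨∑ i, (Nat.card (X i) : ℝ), Finset.sum_nonneg fun i _ => Nat.cast_nonneg _, ?_⟩
    intro i g
    rw [abs_of_nonneg (fx_bd (X i) g).1]
    refine (fx_bd (X i) g).2.trans ?_
    exact Finset.single_le_sum (f := fun i => (Nat.card (X i) : ℝ))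
      (fun i _ => Nat.cast_nonneg _) (Finset.mem_univ i)
  set b₀ : Pr k → ℝ := fun v => q v * (3 + c v) with hb₀
  set C'' : ℝ := |C| + |C'| * (T ^ 2 + T) with hC''
  have hC''0 : 0 ≤ C'' := by positivity
  have hB0 : ∀ v, v ∉ R ∪ R' → |b₀ v - q v * (3 + c v)| ≤ C'' := by
    intro v _
    simp only [hb₀, sub_self, abs_zero]
    exact hC''0
  have hB : ∀ i v, v ∉ R ∪ R' →
      |b i v - q v * (sy (fx (X i)) (σ v) + c v * la (fx (X i)) (σ v))| ≤ C'' := by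
    intro i v hv
    rw [Set.mem_union, not_or] at hv
    have h1 := hb i v hv.1
    have h2 := hBN v hv.2 (fx (X i) (σ v)) (fx (X i) (σ v * σ v))
    have e : (q v : ℝ) * (((fx (X i) (σ v)) ^ 2 + fx (X i) (σ v * σ v)) / 2 +
        c v * (((fx (X i) (σ v)) ^ 2 - fx (X i) (σ v * σ v)) / 2)) =
        q v * (sy (fx (X i)) (σ v) + c v * la (fx (X i)) (σ v)) := by
      unfold sy la
      rfl
    rw [e] at h2
    have h3 : C' * ((fx (X i) (σ v)) ^ 2 + |fx (X i) (σ v * σ v)|) ≤ |C'| * (T ^ 2 + T) := by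
      have a1 := hT i (σ v)
      have a2 := hT i (σ v * σ v)
      have a3 : (fx (X i) (σ v)) ^ 2 ≤ T ^ 2 := by
        rw [← sq_abs]
        exact pow_le_pow_left₀ (abs_nonneg _) a1 2
      have a4 : (0 : ℝ) ≤ (fx (X i) (σ v)) ^ 2 + |fx (X i) (σ v * σ v)| := by positivity
      calc C' * ((fx (X i) (σ v)) ^ 2 + |fx (X i) (σ v * σ v)|)
          ≤ |C'| * ((fx (X i) (σ v)) ^ 2 + |fx (X i) (σ v * σ v)|) :=
            mul_le_mul_of_nonneg_right (le_abs_self _) a4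
        _ ≤ |C'| * (T ^ 2 + T) := mul_le_mul_of_nonneg_left (add_le_add a3 a2) (abs_nonneg _)
    calc |b i v - q v * (sy (fx (X i)) (σ v) + c v * la (fx (X i)) (σ v))|
        = |(b i v - BN f v (fx (X i) (σ v)) (fx (X i) (σ v * σ v))) +
          (BN f v (fx (X i) (σ v)) (fx (X i) (σ v * σ v)) -
            q v * (sy (fx (X i)) (σ v) + c v * la (fx (X i)) (σ v)))| := by
          congr 1
          ring
      _ ≤ |b i v - BN f v (fx (X i) (σ v)) (fx (X i) (σ v * σ v))| +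
          |BN f v (fx (X i) (σ v)) (fx (X i) (σ v * σ v)) -
            q v * (sy (fx (X i)) (σ v) + c v * la (fx (X i)) (σ v))| := abs_add_le _ _
      _ ≤ C + C' * ((fx (X i) (σ v)) ^ 2 + |fx (X i) (σ v * σ v)|) := add_le_add h1 h2
      _ ≤ |C| + |C'| * (T ^ 2 + T) := add_le_add (le_abs_self _) h3
  obtain ⟨hsum, hmain⟩ := hM2 k L σ (R ∪ R') (hR.union hR')
    (fun v hv => hσ v (fun h => hv (Or.inl h))) c hc ι (fun i => fx (X i)) hDiv horth C'' b₀ b
    hB0 hB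
  have hS2 : ∀ s : ℝ, 2 < s → ∀ i,
      Summable (fun v : Pr k => b i v * Real.log (q v) * (q v : ℝ) ^ (-s)) :=
    fun s hs i => (hsum s hs).2 i
  have hineq : ∀ ε > 0, ∀ᶠ s : ℝ in 𝓝[>] 2, ∑ i, ((s - 2) * FS (b i) s - 2) ^ 2 ≤ 8 + ε := by
    intro ε hε
    filter_upwards [hmain (ε / 2) (by positivity)] with s hs
    have key : ∀ i, ((s - 2) * FS (b i) s - 2) ^ 2 ≤
        2 * (((s - 2) * (FS (b i) s - avg (la (fx (X i) : (L ≃ₐ[k] L) → ℝ)) * FS b₀ s) -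
          (avg (sy (fx (X i) : (L ≃ₐ[k] L) → ℝ)) -
            3 * avg (la (fx (X i) : (L ≃ₐ[k] L) → ℝ)))) ^ 2 /
        avg (fun g => (la (fx (X i) : (L ≃ₐ[k] L) → ℝ) g -
          avg (la (fx (X i) : (L ≃ₐ[k] L) → ℝ))) ^ 2)) := by
      intro i
      simp only [hla, hsy, zero_mul, mul_zero, sub_zero]
      have u1 := (h4 i).2.2.1
      have u2 := (h4 i).2.2.2
      rw [mul_div_assoc', le_div_iff₀ u1]
      nlinarith [sq_nonneg ((s - 2) * FS (b i) s - 2)]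
    calc ∑ i, ((s - 2) * FS (b i) s - 2) ^ 2 ≤ _ := Finset.sum_le_sum fun i _ => key i
      _ ≤ 2 * (4 + ε / 2) := by
          rw [← Finset.mul_sum]
          exact mul_le_mul_of_nonneg_left hs (by norm_num)
      _ = 8 + ε := by ring
  exact ⟨hS2, hineq⟩

end

end Pool.Agent.Helper41.TN
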